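import Pool.Agent.Q289.OP.Stm

/-!
# Comparison by positive association
-/

set_option autoImplicit false

namespace Q237.OP.Aop

open Q289.OP Finset

variable {ι : Type} [Fintype ι] [DecidableEq ι] [PartialOrder ι] {N : ℕ}

/-- inner product -/
noncomputable def ip (w F G : (ι → Fin (N + 1)) → ℝ) : ℝ := ∑ c, w c * (F c * G c)

theorem cE_add (w : (ι → Fin (N + 1)) → ℝ) (a : Fin N) (F G : (ι → Fin (N + 1)) → ℝ) :
    cE w a (F + G) = cE w a F + cE w a G := by
  funext c
  simp only [cE, Pi.add_apply]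
  rw [← add_div, ← Finset.sum_add_distrib]
  congr 1
  refine Finset.sum_congr rfl fun d _ => ?_
  split_ifs <;> ring

theorem cE_smul (w : (ι → Fin (N + 1)) → ℝ) (a : Fin N) (k : ℝ) (F : (ι → Fin (N + 1)) → ℝ) :
    cE w a (k • F) = k • cE w a F := by
  funext c
  simp only [cE, Pi.smul_apply, smul_eq_mul]
  rw [← mul_div_assoc, Finset.mul_sum]
  congr 1
  refine Finset.sum_congr rfl fun d _ => ?_
  split_ifs <;> ring

theorem cE_congr (w : (ι → Fin (N + 1)) → ℝ) (a : Fin N) (F G : (ι → Fin (N + 1)) → ℝ)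
    (h : ∀ c, w c * F c = w c * G c) : cE w a F = cE w a G := by
  funext c
  simp only [cE, h]

theorem blk_self (a : Fin N) (c : ι → Fin (N + 1)) : blk a c c := fun _ => Or.inl rfl

theorem cE_const (w : (ι → Fin (N + 1)) → ℝ) (hw : ∀ c, 0 ≤ w c) (a : Fin N)
    (c : ι → Fin (N + 1)) (hc : 0 < w c) (k : ℝ) : cE w a (fun _ => k) c = k := by
  classical
  simp only [cE]
  have h1 : 0 < ∑ d, if blk a c d then w d else 0 := by
    refine Finset.sum_pos' (fun d _ => ?_) ⟨c, mem_univ _, ?_⟩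
    · split_ifs
      · exact hw _
      · exact le_rfl
    · rw [if_pos (blk_self a c)]
      exact hc
  have h2 : (∑ d, if blk a c d then w d * k else 0) = (∑ d, if blk a c d then w d else 0) * k := by
    rw [Finset.sum_mul]
    refine Finset.sum_congr rfl fun d _ => ?_
    split_ifs <;> ring
  have h3 : (∑ d, if blk a c d then w d * k else 0) / (∑ d, if blk a c d then w d else 0) = k := by
    rw [h2]
    field_simp
  convert h3

/-- the average of the conditional expectations as a linear map -/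
noncomputable def TL (w : (ι → Fin (N + 1)) → ℝ) : Module.End ℝ ((ι → Fin (N + 1)) → ℝ) where
  toFun := TT w
  map_add' F G := by
    funext c
    simp only [TT, cE_add, Pi.add_apply, Finset.sum_add_distrib, add_div]
  map_smul' k F := by
    funext c
    simp only [TT, cE_smul, Pi.smul_apply, smul_eq_mul, RingHom.id_apply]
    rw [← Finset.mul_sum, mul_div_assoc]

theorem TL_apply (w F : (ι → Fin (N + 1)) → ℝ) : TL w F = TT w F := rfl

theorem TL_pow (w F : (ι → Fin (N + 1)) → ℝ) (m : ℕ) : (TL w ^ m) F = (TT w)^[m] F := by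
  rw [Module.End.coe_pow]
  rfl

theorem ip_comm (w F G : (ι → Fin (N + 1)) → ℝ) : ip w F G = ip w G F := by
  unfold ip
  exact Finset.sum_congr rfl fun c _ => by ring

theorem ip_add_right (w F G H : (ι → Fin (N + 1)) → ℝ) :
    ip w F (G + H) = ip w F G + ip w F H := by
  unfold ip
  rw [← Finset.sum_add_distrib]
  exact Finset.sum_congr rfl fun c _ => by simp only [Pi.add_apply]; ring

theorem ip_smul_right (w F G : (ι → Fin (N + 1)) → ℝ) (k : ℝ) :
    ip w F (k • G) = k * ip w F G := by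
  unfold ip
  rw [Finset.mul_sum]
  exact Finset.sum_congr rfl fun c _ => by simp only [Pi.smul_apply, smul_eq_mul]; ring

theorem ip_add_left (w F G H : (ι → Fin (N + 1)) → ℝ) :
    ip w (F + G) H = ip w F H + ip w G H := by
  rw [ip_comm, ip_add_right, ip_comm w H F, ip_comm w H G]

theorem ip_smul_left (w F G : (ι → Fin (N + 1)) → ℝ) (k : ℝ) :
    ip w (k • F) G = k * ip w F G := by
  rw [ip_comm, ip_smul_right, ip_comm]

theorem ip_self (w : (ι → Fin (N + 1)) → ℝ) (hw : ∀ c, 0 ≤ w c) (F : (ι → Fin (N + 1)) → ℝ) :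
    0 ≤ ip w F F :=
  Finset.sum_nonneg fun c _ => mul_nonneg (hw c) (mul_self_nonneg _)

theorem ip_TT (w F G : (ι → Fin (N + 1)) → ℝ) :
    ip w F (TT w G) = (∑ a, ip w F (cE w a G)) / N := by
  unfold ip TT
  rw [Finset.sum_comm, Finset.sum_div]
  refine Finset.sum_congr rfl fun c _ => ?_
  rw [← Finset.mul_sum, ← Finset.mul_sum]
  ring

theorem ip_symm (h3 : S_PRO) (w : (ι → Fin (N + 1)) → ℝ) (hw : ∀ c, 0 ≤ w c)
    (F G : (ι → Fin (N + 1)) → ℝ) : ip w F (TT w G) = ip w (TT w F) G := by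
  rw [ip_comm w (TT w F) G, ip_TT, ip_TT]
  congr 1
  refine Finset.sum_congr rfl fun a _ => ?_
  rw [ip_comm w G]
  exact ((h3 ι N w hw a F G).1).symm

theorem ip_TT_self (h3 : S_PRO) (w : (ι → Fin (N + 1)) → ℝ) (hw : ∀ c, 0 ≤ w c)
    (F : (ι → Fin (N + 1)) → ℝ) : 0 ≤ ip w F (TT w F) := by
  rw [ip_TT]
  refine div_nonneg (Finset.sum_nonneg fun a _ => ?_) (Nat.cast_nonneg _)
  have := (h3 ι N w hw a F F).2.1
  have h5 : ip w F (cE w a F) = ip w (cE w a F) (cE w a F) := this.symm
  rw [h5]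
  exact ip_self w hw _

theorem ip_pow (h3 : S_PRO) (w : (ι → Fin (N + 1)) → ℝ) (hw : ∀ c, 0 ≤ w c)
    (F G : (ι → Fin (N + 1)) → ℝ) (m : ℕ) : ip w F ((TL w ^ m) G) = ip w ((TL w ^ m) F) G := by
  induction m generalizing F G with
  | zero => rfl
  | succ n ih =>
    calc ip w F ((TL w ^ (n + 1)) G) = ip w F (TT w ((TL w ^ n) G)) := by
          rw [pow_succ', Module.End.mul_apply, TL_apply]
      _ = ip w ((TL w ^ n) (TT w F)) G := by rw [ip_symm h3 w hw, ih]
      _ = ip w ((TL w ^ (n + 1)) F) G := by rw [pow_succ, Module.End.mul_apply, TL_apply]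

theorem TT_congr (w F G : (ι → Fin (N + 1)) → ℝ) (h : ∀ c, w c * F c = w c * G c) :
    TT w F = TT w G := by
  funext c
  simp only [TT]
  congr 1
  exact Finset.sum_congr rfl fun a _ => by rw [cE_congr w a F G h]

theorem TT_sub_const (w : (ι → Fin (N + 1)) → ℝ) (hN : 1 ≤ N) (hw : ∀ c, 0 ≤ w c)
    (F : (ι → Fin (N + 1)) → ℝ) (k : ℝ) (c : ι → Fin (N + 1)) :
    w c * TT w (fun d => F d - k) c = w c * (TT w F c - k) := by
  rcases (hw c).eq_or_lt with h | h
  · rw [← h, zero_mul, zero_mul]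
  · have h1 : TT w (fun d => F d - k) = TT w F + (-1 : ℝ) • TT w (fun _ => k) := by
      have h2 : (fun d => F d - k) = F + (-1 : ℝ) • (fun _ : ι → Fin (N + 1) => k) := by
        funext d
        simp only [Pi.add_apply, Pi.smul_apply, smul_eq_mul]
        ring
      rw [h2, ← TL_apply, map_add, map_smul, TL_apply, TL_apply]
    have h4 : TT w (fun _ => k) c = k := by
      simp only [TT, cE_const w hw _ c h]
      rw [Finset.sum_const, Finset.card_univ, Fintype.card_fin, nsmul_eq_mul]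
      have : (N : ℝ) ≠ 0 := by
        have : (1 : ℝ) ≤ N := by exact_mod_cast hN
        linarith
      field_simp
    rw [h1]
    simp only [Pi.add_apply, Pi.smul_apply, smul_eq_mul]
    rw [h4]
    ring

theorem pow_sub_const (w : (ι → Fin (N + 1)) → ℝ) (hN : 1 ≤ N) (hw : ∀ c, 0 ≤ w c)
    (F : (ι → Fin (N + 1)) → ℝ) (k : ℝ) (m : ℕ) (c : ι → Fin (N + 1)) :
    w c * (TL w ^ m) (fun d => F d - k) c = w c * ((TL w ^ m) F c - k) := by
  induction m generalizing c with
  | zero => rfl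
  | succ n ih =>
    rw [pow_succ', Module.End.mul_apply, Module.End.mul_apply, TL_apply, TL_apply,
      TT_congr w _ _ ih]
    exact TT_sub_const w hN hw _ k c

theorem sum_TT (h3 : S_PRO) (w : (ι → Fin (N + 1)) → ℝ) (hN : 1 ≤ N) (hw : ∀ c, 0 ≤ w c)
    (F : (ι → Fin (N + 1)) → ℝ) : ∑ c, w c * TT w F c = ∑ c, w c * F c := by
  have h1 : ∑ c, w c * TT w F c = (∑ a, ∑ c, w c * cE w a F c) / N := by
    unfold TT
    rw [Finset.sum_comm, Finset.sum_div]
    refine Finset.sum_congr rfl fun c _ => ?_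
    rw [← Finset.mul_sum]
    ring
  rw [h1]
  have h2 : ∀ a : Fin N, ∑ c, w c * cE w a F c = ∑ c, w c * F c := fun a =>
    (h3 ι N w hw a F F).2.2
  simp only [h2]
  rw [Finset.sum_const, Finset.card_univ, Fintype.card_fin, nsmul_eq_mul]
  have : (N : ℝ) ≠ 0 := by
    have : (1 : ℝ) ≤ N := by exact_mod_cast hN
    linarith
  field_simp

theorem sum_pow (h3 : S_PRO) (w : (ι → Fin (N + 1)) → ℝ) (hN : 1 ≤ N) (hw : ∀ c, 0 ≤ w c)
    (F : (ι → Fin (N + 1)) → ℝ) (m : ℕ) : ∑ c, w c * (TL w ^ m) F c = ∑ c, w c * F c := by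
  induction m with
  | zero => rfl
  | succ n ih =>
    rw [pow_succ', Module.End.mul_apply, TL_apply, sum_TT h3 w hN hw, ih]

theorem vr_eq (w : (ι → Fin (N + 1)) → ℝ) (hW : 0 < ∑ c, w c) (F : (ι → Fin (N + 1)) → ℝ) :
    (∑ c, w c) * vr w F = (∑ c, w c) * ip w F F - (∑ c, w c * F c) ^ 2 := by
  have h1 : vr w F = ip w F F - 2 * mm w F * (∑ c, w c * F c) + mm w F ^ 2 * ∑ c, w c := by
    unfold vr ip
    rw [Finset.mul_sum, Finset.mul_sum, ← Finset.sum_sub_distrib, ← Finset.sum_add_distrib]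
    exact Finset.sum_congr rfl fun c _ => by ring
  have h2 : mm w F * (∑ c, w c) = ∑ c, w c * F c := by
    unfold mm
    field_simp
  rw [h1]
  have h3 : (∑ c, w c) * (mm w F ^ 2 * ∑ c, w c) = (mm w F * (∑ c, w c)) ^ 2 := by ring
  have h4 : (∑ c, w c) * (2 * mm w F * (∑ c, w c * F c)) =
      2 * (mm w F * (∑ c, w c)) * (∑ c, w c * F c) := by ring
  rw [mul_add, mul_sub, h3, h4, h2]
  ring

theorem mono_pow (h : S_MONO) (w : (ι → Fin (N + 1)) → ℝ) (hw : IsW w)
    (F : (ι → Fin (N + 1)) → ℝ) (hF : MonO F) (m : ℕ) : MonO ((TL w ^ m) F) := by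
  induction m with
  | zero => exact hF
  | succ n ih =>
    rw [pow_succ', Module.End.mul_apply, TL_apply]
    intro c d hc hd hcd
    simp only [TT]
    refine div_le_div_of_nonneg_right (Finset.sum_le_sum fun a _ => ?_) (Nat.cast_nonneg _)
    exact h ι N w hw a _ ih c d hc hd hcd

/-- comparison of variances -/
theorem vr_le (h : S_MONO) (h2 : S_ASSO) (w : (ι → Fin (N + 1)) → ℝ)
    (hw : IsW w) (hW : 0 < ∑ c, w c) (G F : (ι → Fin (N + 1)) → ℝ) (L : ℝ)
    (hG : ∀ c d, c < d → G c + 1 ≤ G d) (hL : ∀ c d, |F c - F d| ≤ L) (m : ℕ) :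
    vr w ((TL w ^ m) F) ≤ L ^ 2 * vr w ((TL w ^ m) G) := by
  have hL0 : 0 ≤ L := le_trans (abs_nonneg _) (hL (fun _ => 0) (fun _ => 0))
  have m1 : MonO (L • G + F) := by
    intro c d _ _ hcd
    simp only [Pi.add_apply, Pi.smul_apply, smul_eq_mul]
    rcases hcd.eq_or_lt with e | e
    · rw [e]
    · have e1 := hG c d e
      have e2 := abs_le.1 (hL c d)
      nlinarith [e2.1, e2.2]
  have m2 : MonO (L • G + (-1 : ℝ) • F) := by
    intro c d _ _ hcd
    simp only [Pi.add_apply, Pi.smul_apply, smul_eq_mul]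
    rcases hcd.eq_or_lt with e | e
    · rw [e]
    · have e1 := hG c d e
      have e2 := abs_le.1 (hL c d)
      nlinarith [e2.1, e2.2]
  have n1 := mono_pow h w hw _ m1 m
  have n2 := mono_pow h w hw _ m2 m
  rw [map_add, map_smul] at n1
  rw [map_add, map_smul, map_smul] at n2
  have n3 := h2 ι N w hw _ _ n1 n2
  set P := (TL w ^ m) G
  set Q := (TL w ^ m) F
  have s1 : ∑ c, w c * (L • P + Q) c = L * (∑ c, w c * P c) + ∑ c, w c * Q c := by
    rw [Finset.mul_sum, ← Finset.sum_add_distrib]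
    exact Finset.sum_congr rfl fun c _ => by
      simp only [Pi.add_apply, Pi.smul_apply, smul_eq_mul]; ring
  have s2 : ∑ c, w c * (L • P + (-1 : ℝ) • Q) c =
      L * (∑ c, w c * P c) - ∑ c, w c * Q c := by
    rw [Finset.mul_sum, ← Finset.sum_sub_distrib]
    exact Finset.sum_congr rfl fun c _ => by
      simp only [Pi.add_apply, Pi.smul_apply, smul_eq_mul]; ring
  have s3 : ∑ c, w c * ((L • P + Q) c * (L • P + (-1 : ℝ) • Q) c) =
      L ^ 2 * ip w P P - ip w Q Q := by
    unfold ip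
    rw [Finset.mul_sum, ← Finset.sum_sub_distrib]
    exact Finset.sum_congr rfl fun c _ => by
      simp only [Pi.add_apply, Pi.smul_apply, smul_eq_mul]; ring
  rw [s1, s2, s3] at n3
  have v1 := vr_eq w hW P
  have v2 := vr_eq w hW Q
  refine le_of_mul_le_mul_left ?_ hW
  have : (∑ c, w c) * (L ^ 2 * vr w P) = L ^ 2 * ((∑ c, w c) * vr w P) := by ring
  rw [this, v1, v2]
  nlinarith [n3]

theorem lv_eq (h3 : S_PRO) (w : (ι → Fin (N + 1)) → ℝ) (hN : 1 ≤ N) (hw : ∀ c, 0 ≤ w c)
    (F : (ι → Fin (N + 1)) → ℝ) : lv w F / N = ip w F F - ip w F (TT w F) := by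
  have hN' : (N : ℝ) ≠ 0 := by
    have : (1 : ℝ) ≤ N := by exact_mod_cast hN
    linarith
  have h1 : lv w F = ∑ a : Fin N, (ip w F F - ip w F (cE w a F)) := by
    unfold lv
    refine Finset.sum_congr rfl fun a _ => ?_
    have e1 : ip w (cE w a F) (cE w a F) = ip w F (cE w a F) := (h3 ι N w hw a F F).2.1
    have e2 : ∑ c, w c * (F c - cE w a F c) ^ 2 =
        ip w F F - 2 * ip w F (cE w a F) + ip w (cE w a F) (cE w a F) := by
      unfold ip
      rw [Finset.mul_sum, ← Finset.sum_sub_distrib, ← Finset.sum_add_distrib]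
      exact Finset.sum_congr rfl fun c _ => by ring
    rw [e2, e1]
    ring
  rw [h1, ip_TT, Finset.sum_sub_distrib, Finset.sum_const, Finset.card_univ, Fintype.card_fin,
    nsmul_eq_mul]
  field_simp

theorem aop (h : S_MONO) (h2 : S_ASSO) (h3 : S_PRO) (h4 : S_LC) : S_AOP := by
  intro ι _ _ _ N w hN hw G C γ hG hγ hv F
  have hW : 0 < ∑ c, w c := by
    refine Finset.sum_pos' (fun c _ => hw.nonneg c) ⟨fun _ => 0, mem_univ _, ?_⟩
    exact (hw.pos _).2 fun _ _ _ => le_rfl
  have hw0 := hw.nonneg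
  set W := ∑ c, w c with hWdef
  set μ := mm w F with hμ
  have hμ1 : μ * W = ∑ c, w c * F c := by
    rw [hμ]
    unfold mm
    rw [← hWdef]
    field_simp
  set F' : (ι → Fin (N + 1)) → ℝ := fun d => F d - μ with hF'
  set s : ℕ → ℝ := fun m => ip w F' ((TL w ^ m) F') with hs
  -- products
  have hst : ∀ i j : ℕ, ip w ((TL w ^ i) F') ((TL w ^ j) F') = s (i + j) := by
    intro i j
    rw [hs]
    simp only
    rw [pow_add, Module.End.mul_apply, ip_pow h3 w hw0 F' _ i]
  have hstT : ∀ i j : ℕ, ip w ((TL w ^ i) F') (TT w ((TL w ^ j) F')) = s (i + j + 1) := by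
    intro i j
    have : TT w ((TL w ^ j) F') = (TL w ^ (j + 1)) F' := by
      rw [pow_succ', Module.End.mul_apply, TL_apply]
    rw [this, hst]
    rfl
  have hs0 : ∀ m, 0 ≤ s m := by
    intro m
    rcases Nat.even_or_odd' m with ⟨k, hk | hk⟩
    · rw [hk, two_mul, ← hst]
      exact ip_self w hw0 _
    · rw [hk, two_mul, ← hstT]
      exact ip_TT_self h3 w hw0 _
  have hquad : ∀ m (t : ℝ), 0 ≤ s (m + 2) * (t * t) + (2 * s (m + 1)) * t + s m := by
    intro m t
    rcases Nat.even_or_odd' m with ⟨k, hk | hk⟩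
    · have e1 := hst k k
      have e2 := hst k (k + 1)
      have e3 := hst (k + 1) (k + 1)
      have e4 := hst (k + 1) k
      have e5 := ip_self w hw0 ((TL w ^ k) F' + t • (TL w ^ (k + 1)) F')
      rw [ip_add_left, ip_add_right, ip_add_right, ip_smul_left, ip_smul_left, ip_smul_right,
        ip_smul_right, e1, e2, e3, e4] at e5
      have f1 : k + k = m := by omega
      have f2 : k + (k + 1) = m + 1 := by omega
      have f3 : k + 1 + (k + 1) = m + 2 := by omega
      have f4 : k + 1 + k = m + 1 := by omega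
      rw [f1, f2, f3, f4] at e5
      nlinarith [e5]
    · have e1 := hstT k k
      have e2 := hstT k (k + 1)
      have e3 := hstT (k + 1) (k + 1)
      have e4 := hstT (k + 1) k
      have e5 := ip_TT_self h3 w hw0 ((TL w ^ k) F' + t • (TL w ^ (k + 1)) F')
      have e6 : TT w ((TL w ^ k) F' + t • (TL w ^ (k + 1)) F') =
          TT w ((TL w ^ k) F') + t • TT w ((TL w ^ (k + 1)) F') := by
        rw [← TL_apply, map_add, map_smul, TL_apply, TL_apply]
      rw [e6, ip_add_left, ip_add_right, ip_add_right, ip_smul_left, ip_smul_left, ip_smul_right,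
        ip_smul_right, e1, e2, e3, e4] at e5
      have f1 : k + k + 1 = m := by omega
      have f2 : k + (k + 1) + 1 = m + 1 := by omega
      have f3 : k + 1 + (k + 1) + 1 = m + 2 := by omega
      have f4 : k + 1 + k + 1 = m + 1 := by omega
      rw [f1, f2, f3, f4] at e5
      nlinarith [e5]
  have hlc : ∀ m, s (m + 1) ^ 2 ≤ s m * s (m + 2) := by
    intro m
    have := discrim_le_zero (hquad m)
    unfold discrim at this
    nlinarith [this]
  -- variances
  have hsv : ∀ m, s (2 * m) = vr w ((TL w ^ m) F) := by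
    intro m
    rw [two_mul, ← hst]
    have hm : mm w ((TL w ^ m) F) = μ := by
      rw [hμ]
      unfold mm
      rw [sum_pow h3 w hN hw0]
    unfold ip vr
    rw [hm]
    refine Finset.sum_congr rfl fun c _ => ?_
    have e1 := pow_sub_const w hN hw0 F μ m c
    rcases (hw0 c).eq_or_lt with e | e
    · rw [← e, zero_mul, zero_mul]
    · have e2 : (TL w ^ m) F' c = (TL w ^ m) F c - μ := mul_left_cancel₀ e.ne' e1
      rw [e2]
      ring
  set L : ℝ := 2 * ∑ c, |F c| with hL
  have hLF : ∀ c d, |F c - F d| ≤ L := by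
    intro c d
    have g1 : |F c| ≤ ∑ c, |F c| := Finset.single_le_sum (f := fun c => |F c|)
      (fun i _ => abs_nonneg _) (mem_univ c)
    have g2 : |F d| ≤ ∑ c, |F c| := Finset.single_le_sum (f := fun c => |F c|)
      (fun i _ => abs_nonneg _) (mem_univ d)
    calc |F c - F d| ≤ |F c| + |F d| := abs_sub _ _
      _ ≤ L := by rw [hL]; linarith
  have hbd : ∀ m, s (2 * m) ≤ L ^ 2 * C * γ ^ (2 * m) := by
    intro m
    rw [hsv]
    have g1 := vr_le h h2 w hw hW G F L hG hLF m
    have g2 := hv m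
    rw [← TL_pow] at g2
    calc vr w ((TL w ^ m) F) ≤ L ^ 2 * vr w ((TL w ^ m) G) := g1
      _ ≤ L ^ 2 * (C * γ ^ (2 * m)) := mul_le_mul_of_nonneg_left g2 (sq_nonneg _)
      _ = _ := by ring
  have h10 := h4 s (L ^ 2 * C) γ hs0 hlc hγ hbd
  have h11 : s 0 = vr w F := hsv 0
  have h12 : s 0 - s 1 = lv w F / N := by
    rw [lv_eq h3 w hN hw0]
    have g0 : s 0 = ip w F' F' := rfl
    have g1 : s 1 = ip w F' (TT w F') := by
      change ip w F' ((TL w ^ 1) F') = _
      rw [pow_one, TL_apply]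
    have g2 : ip w F' F' = ip w F F - μ ^ 2 * W := by
      have : ip w F' F' = ip w F F - 2 * μ * (∑ c, w c * F c) + μ ^ 2 * W := by
        unfold ip
        rw [hWdef, Finset.mul_sum, Finset.mul_sum, ← Finset.sum_sub_distrib,
          ← Finset.sum_add_distrib]
        exact Finset.sum_congr rfl fun c _ => by simp only [hF']; ring
      rw [this, ← hμ1]
      ring
    have g3 : ip w F' (TT w F') = ip w F (TT w F) - μ ^ 2 * W := by
      have k1 : ip w F' (TT w F') = ∑ c, w c * ((F c - μ) * (TT w F c - μ)) := by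
        unfold ip
        refine Finset.sum_congr rfl fun c _ => ?_
        have := TT_sub_const w hN hw0 F μ c
        calc w c * (F' c * TT w F' c) = F' c * (w c * TT w F' c) := by ring
          _ = F' c * (w c * (TT w F c - μ)) := by rw [this]
          _ = _ := by simp only [hF']; ring
      have k2 : ∑ c, w c * ((F c - μ) * (TT w F c - μ)) =
          ip w F (TT w F) - μ * (∑ c, w c * F c) - μ * (∑ c, w c * TT w F c) + μ ^ 2 * W := by
        unfold ip
        rw [hWdef, Finset.mul_sum, Finset.mul_sum, Finset.mul_sum, ← Finset.sum_sub_distrib,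
          ← Finset.sum_sub_distrib, ← Finset.sum_add_distrib]
        exact Finset.sum_congr rfl fun c _ => by ring
      rw [k1, k2, sum_TT h3 w hN hw0, ← hμ1]
      ring
    rw [g0, g1, g2, g3]
    ring
  rw [← h12, ← h11]
  linarith

end Q237.OP.Aop
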