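import Pool.Agent.Q289.OP.Stm
import Pool.Agent.Q289.OP.Stm2

/-!
# The Poincare inequality in a box
-/

set_option autoImplicit false

namespace Q237.OP.Box

open MeasureTheory Set Filter Topology Q289.OP

theorem dl_tendsto (A B : ℝ) : Tendsto (fun N : ℕ => dl A B N) atTop (𝓝 0) := by
  unfold dl
  exact tendsto_const_nhds.div_atTop
    (tendsto_atTop_add_const_right _ _ tendsto_natCast_atTop_atTop)

variable {ι : Type} [Fintype ι] [DecidableEq ι] [PartialOrder ι]

theorem unif (A B : ℝ) (f : (ι → ℝ) → ℝ) (hf : Continuous f) (ε : ℝ) (hε : 0 < ε) :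
    ∀ᶠ N : ℕ in atTop, ∀ x y : ι → ℝ, (∀ i, x i ∈ Icc A B) → (∀ i, y i ∈ Icc A B) →
      (∀ i, |x i - y i| ≤ dl A B N) → |f x - f y| ≤ ε := by
  have h1 : IsCompact (Set.pi univ fun _ : ι => Icc A B) := isCompact_univ_pi fun _ => isCompact_Icc
  have h2 := h1.uniformContinuousOn_of_continuous hf.continuousOn
  obtain ⟨δ, hδ, h3⟩ := Metric.uniformContinuousOn_iff_le.1 h2 ε hε
  filter_upwards [(dl_tendsto A B).eventually_le_const hδ] with N hN x y hx hy hxy
  have := h3 x (fun i _ => hx i) y (fun i _ => hy i) ?_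
  · rwa [Real.dist_eq] at this
  · rw [dist_pi_le_iff hδ.le]
    intro i
    rw [Real.dist_eq]
    exact (hxy i).trans hN

theorem vr_id {N : ℕ} (w : (ι → Fin (N + 1)) → ℝ) (hw : ∀ c, 0 ≤ w c)
    (F : (ι → Fin (N + 1)) → ℝ) :
    (∑ c, w c) * (∑ c, w c * F c ^ 2) - (∑ c, w c * F c) ^ 2 = (∑ c, w c) * vr w F := by
  rcases (Finset.sum_nonneg fun c (_ : c ∈ Finset.univ) => hw c).eq_or_lt with h | h
  · have h1 : ∀ c, w c = 0 := by
      intro c
      exact (Finset.sum_eq_zero_iff_of_nonneg fun c _ => hw c).1 h.symm c (Finset.mem_univ c)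
    simp [h1]
  · have h1 : vr w F = (∑ c, w c * F c ^ 2) - 2 * mm w F * (∑ c, w c * F c) +
        mm w F ^ 2 * ∑ c, w c := by
      unfold vr
      rw [Finset.mul_sum, Finset.mul_sum, ← Finset.sum_sub_distrib, ← Finset.sum_add_distrib]
      exact Finset.sum_congr rfl fun c _ => by ring
    have h2 : mm w F * (∑ c, w c) = ∑ c, w c * F c := by
      unfold mm
      field_simp
    rw [h1, ← h2]
    ring

theorem box (h1 : S_DIS) (h2 : S_AVG) (h3 : S_LOC) (h4 : S_1D) (h5 : S_RIE) : S_BOX := by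
  intro ι _ _ _ φ A B C hφ hint hgd hC hP f hf
  have hgc : Continuous (gr (ι := ι) f) := by
    unfold gr
    refine continuous_finset_sum _ fun i _ => ?_
    have : Continuous fun x => fderiv ℝ f x := hf.continuous_fderiv (by norm_num)
    exact (this.clm_apply continuous_const).pow 2
  have key : ∀ ε : ℝ, 0 < ε →
      IA (ι := ι) φ A B (fun _ => 1) * IA φ A B (fun x => f x ^ 2) -
        ε ^ 2 * IA (ι := ι) φ A B (fun _ => 1) ^ 2 - IA φ A B f ^ 2 ≤
      C * (1 + ε) * (IA (ι := ι) φ A B (fun _ => 1) * (IA φ A B (gr f) + ε)) := by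
    intro ε hε
    have t1 := h5 ι φ A B hgd (fun _ => 1) continuous_const
    have t2 := h5 ι φ A B hgd (fun x => f x ^ 2) (hf.continuous.pow 2)
    have t3 := h5 ι φ A B hgd f hf.continuous
    have t4 := h5 ι φ A B hgd (gr f) hgc
    have l1 := ((t1.mul t2).sub ((t1.pow 2).const_mul (ε ^ 2))).sub (t3.pow 2)
    have l2 := (t1.mul (t4.add_const ε)).const_mul (C * (1 + ε))
    refine le_of_tendsto_of_tendsto l1 l2 ?_
    filter_upwards [h3 ι φ A B hgd f hf ε hε, h4 φ A B C hφ hint hgd hC hP ε hε,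
      unif A B f hf.continuous ε hε] with N e1 e2 e3
    obtain ⟨a1, a2, a3, a4⟩ := h2 ι φ A B hgd N f hf.continuous
    have a5 := a4 ε e3
    have hdl : 0 < dl A B N := by
      unfold dl
      have := hgd.lt
      have h9 : (0 : ℝ) < (N : ℝ) + 1 := by positivity
      exact div_pos (by linarith) h9
    have hK : 0 < 2 * C * (1 + ε) / dl A B N ^ 2 := by positivity
    have a6 := h1 ι N (qq φ A B N) _ a1 hK e2 (av A B N f)
    have hw : ∀ c : ι → Fin (N + 1), 0 ≤ ww (qq φ A B N) c := by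
      intro c
      unfold ww vv
      exact mul_nonneg (Finset.prod_nonneg fun i _ => (a1 _).le) ENNReal.toReal_nonneg
    have a7 := vr_id (ww (qq φ A B N)) hw (av A B N f)
    rw [a2, a3] at a7
    have hW : 0 ≤ IN (ι := ι) φ A B N (fun _ => 1) := by
      rw [← a3]
      exact Finset.sum_nonneg fun c _ => hw c
    set W := IN (ι := ι) φ A B N (fun _ => 1)
    set S := ∑ c : ι → Fin (N + 1), ww (qq φ A B N) c * av A B N f c ^ 2
    have b1 : W * IN φ A B N (fun x => f x ^ 2) - ε ^ 2 * W ^ 2 ≤ W * S := by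
      have := mul_le_mul_of_nonneg_left a5 hW
      nlinarith [this]
    have b2 : vr (ww (qq φ A B N)) (av (ι := ι) A B N f) ≤
        C * (1 + ε) * (IN φ A B N (gr f) + ε) := by
      calc vr (ww (qq φ A B N)) (av (ι := ι) A B N f) ≤ _ := a6
        _ ≤ 2 * C * (1 + ε) / dl A B N ^ 2 * (dl A B N ^ 2 / 2 * (IN φ A B N (gr f) + ε)) :=
          mul_le_mul_of_nonneg_left e1 hK.le
        _ = _ := by field_simp
    have b3 := mul_le_mul_of_nonneg_left b2 hW
    change W * IN φ A B N (fun x => f x ^ 2) - ε ^ 2 * W ^ 2 - IN φ A B N f ^ 2 ≤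
      C * (1 + ε) * (W * (IN φ A B N (gr f) + ε))
    calc W * IN φ A B N (fun x => f x ^ 2) - ε ^ 2 * W ^ 2 - IN φ A B N f ^ 2
        ≤ W * S - IN φ A B N f ^ 2 := by linarith
      _ = W * vr (ww (qq φ A B N)) (av (ι := ι) A B N f) := a7
      _ ≤ W * (C * (1 + ε) * (IN φ A B N (gr f) + ε)) := b3
      _ = _ := by ring
  set a := IA (ι := ι) φ A B (fun _ => 1)
  set b := IA φ A B (fun x => f x ^ 2)
  set d := IA φ A B f
  set g := IA φ A B (gr f)
  have c1 : Tendsto (fun ε : ℝ => a * b - ε ^ 2 * a ^ 2 - d ^ 2) (𝓝[>] 0)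
      (𝓝 (a * b - 0 ^ 2 * a ^ 2 - d ^ 2)) := by
    have : Continuous fun ε : ℝ => a * b - ε ^ 2 * a ^ 2 - d ^ 2 := by fun_prop
    exact (this.tendsto 0).mono_left nhdsWithin_le_nhds
  have c2 : Tendsto (fun ε : ℝ => C * (1 + ε) * (a * (g + ε))) (𝓝[>] 0)
      (𝓝 (C * (1 + 0) * (a * (g + 0)))) := by
    have : Continuous fun ε : ℝ => C * (1 + ε) * (a * (g + ε)) := by fun_prop
    exact (this.tendsto 0).mono_left nhdsWithin_le_nhds
  have c3 := le_of_tendsto_of_tendsto c1 c2 (by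
    filter_upwards [self_mem_nhdsWithin] with ε hε
    exact key ε hε)
  have e1 : a * b - 0 ^ 2 * a ^ 2 - d ^ 2 = a * b - d ^ 2 := by ring
  have e2 : C * (1 + 0) * (a * (g + 0)) = C * (a * g) := by ring
  rwa [e1, e2] at c3

end Q237.OP.Box
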