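import Pool.Agent.Q289.OP.Stm2
import Pool.Agent.W695.KH.Final

/-!
# From Poincare to Cheeger for convex bodies
-/

set_option autoImplicit false

namespace Q237.OP.Che

open MeasureTheory Set Filter Topology Pool.Agent.W695.KH Pool.Agent.W12.KH
open scoped ENNReal

variable {κ : Type} [Fintype κ]

theorem split {D : Set (Eu κ)} (hD : IsCompact D) (hne : D.Nonempty) {A : ℝ} (hA : 0 < A)
    {g : Eu κ → ℝ} {B : ℝ} (hg : Continuous g) (hB : ∀ x, |g x| ≤ B * (1 + ‖x‖ ^ 2)) :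
    ∫ x, g x * wt D A x = (∫ x in D, g x) + ∫ x in Dᶜ, g x * wt D A x := by
  rw [← integral_add_compl hD.measurableSet (wt_int hD hne hA hg hB)]
  congr 1
  refine setIntegral_congr_fun hD.measurableSet fun x hx => ?_
  simp [wt, Metric.infDist_zero_of_mem hx]

theorem bd1 {g : Eu κ → ℝ} {B : ℝ} (hB : ∀ x, |g x| ≤ B) (x : Eu κ) :
    |g x| ≤ B * (1 + ‖x‖ ^ 2) := by
  have h1 := hB x
  have h2 : 0 ≤ B := (abs_nonneg _).trans h1
  nlinarith [sq_nonneg ‖x‖, mul_nonneg h2 (sq_nonneg ‖x‖)]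

theorem low {D : Set (Eu κ)} (hD : IsCompact D) (hne : D.Nonempty) {A : ℝ} (hA : 0 < A)
    {g : Eu κ → ℝ} {B : ℝ} (hg : Continuous g) (hB : ∀ x, |g x| ≤ B) (h0 : ∀ x, 0 ≤ g x) :
    ∫ x in D, g x ≤ ∫ x, g x * wt D A x := by
  rw [split hD hne hA hg (bd1 hB)]
  have : 0 ≤ ∫ x in Dᶜ, g x * wt D A x :=
    integral_nonneg fun x => mul_nonneg (h0 x) (wt_pos D A x).le
  linarith

theorem mass {D : Set (Eu κ)} (hD : IsCompact D) (hne : D.Nonempty) {A : ℝ} (hA : 0 < A) :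
    ∫ x, wt D A x = (volume D).toReal + ∫ x in Dᶜ, wt D A x := by
  have h1 := split hD hne hA (g := fun _ => 1) (B := 1) continuous_const
    (bd1 fun x => by simp)
  simpa [Measure.real] using h1

theorem dev {D : Set (Eu κ)} (hD : IsCompact D) (hne : D.Nonempty) {A : ℝ} (hA : 0 < A)
    {g : Eu κ → ℝ} (hg : Continuous g) (hB : ∀ x, |g x| ≤ 1) :
    |(∫ x, g x * wt D A x) - ∫ x in D, g x| ≤ (∫ x, wt D A x) - (volume D).toReal := by
  rw [split hD hne hA hg (bd1 hB), mass hD hne hA, add_sub_cancel_left, add_sub_cancel_left]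
  have i1 : Integrable (wt D A) := by
    have := wt_int hD hne hA (g := fun _ => 1) (B := 1) continuous_const (bd1 fun x => by simp)
    simpa using this
  rw [← Real.norm_eq_abs]
  refine (norm_integral_le_integral_norm _).trans ?_
  refine integral_mono_of_nonneg (Eventually.of_forall fun x => norm_nonneg _)
    i1.integrableOn (Eventually.of_forall fun x => ?_)
  simp only [norm_mul, Real.norm_eq_abs, abs_of_pos (wt_pos D A x)]
  have := mul_le_mul_of_nonneg_right (hB x) (wt_pos D A x).le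
  rwa [one_mul] at this

theorem wpo {D : Set (Eu κ)} (hD : IsCompact D) (hpos : 0 < volume D) {C : ℝ} (hC : 0 < C)
    (hP : ∀ f : Eu κ → ℝ, ContDiff ℝ 1 f → (∀ x, |f x| ≤ 1) →
      VV D f ≤ C * EV D fun x => ‖fderiv ℝ f x‖ ^ 2) {δ : ℝ} (hδ : 0 < δ) :
    ∀ᶠ A : ℝ in atTop, WPo (Uu D A) δ (δ / (2 * C)) := by
  have hne : D.Nonempty := by
    rcases D.eq_empty_or_nonempty with h | h
    · rw [h] at hpos
      simp at hpos
    · exact h
  have hfin : volume D ≠ ⊤ := hD.measure_lt_top.ne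
  set Vd := (volume D).toReal with hVd
  have hVd0 : 0 < Vd := ENNReal.toReal_pos hpos.ne' hfin
  have ht : Tendsto (fun A : ℝ => Vd / ∫ x, wt D A x) atTop (𝓝 1) := by
    have h1 := tend hD hne (g := fun _ => 1) (B := 1) continuous_const (bd1 fun x => by simp)
    have h2 : ∫ x in D, (1 : ℝ) = Vd := by simp [Measure.real, hVd]
    rw [h2] at h1
    simp only [one_mul] at h1
    have h3 := (tendsto_const_nhds (x := Vd)).div h1 hVd0.ne'
    rwa [div_self hVd0.ne'] at h3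
  have he := ht.eventually (lt_mem_nhds (show 1 - δ / 16 < 1 by linarith))
  filter_upwards [he, eventually_gt_atTop (0 : ℝ)] with A h1 hA
  intro v L hv hb hL hvar
  have hgc : Continuous fun x => ‖fderiv ℝ v x‖ ^ 2 :=
    (hv.continuous_fderiv (by norm_num)).norm.pow 2
  have hL0 : 0 ≤ L := (norm_nonneg _).trans (hL 0)
  have hgb : ∀ x, |‖fderiv ℝ v x‖ ^ 2| ≤ L ^ 2 := by
    intro x
    rw [abs_of_nonneg (sq_nonneg _)]
    exact pow_le_pow_left₀ (norm_nonneg _) (hL x) 2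
  have a1 := dev hD hne hA (hv.continuous.pow 2) (fun x => by
    change |v x ^ 2| ≤ 1
    rw [abs_of_nonneg (sq_nonneg _), ← sq_abs]
    exact pow_le_one₀ (abs_nonneg _) (hb x))
  have a2 := dev hD hne hA hv.continuous hb
  have a3 := low hD hne hA hgc hgb (fun x => sq_nonneg _)
  have hm1 : |∫ x in D, v x| ≤ Vd := by
    have := norm_setIntegral_le_of_norm_le_const (μ := volume) (f := v) (C := 1) (s := D)
      hD.measure_lt_top (fun x _ => hb x)
    simpa [Measure.real, hVd] using this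
  have hZ : Vd ≤ ∫ x, wt D A x := by
    have := (abs_nonneg _).trans a2
    linarith
  have e2 : EU (Uu D A) (fun x => v x ^ 2) = (∫ x, v x ^ 2 * wt D A x) / ∫ x, wt D A x :=
    EU_eq hD hne hA _
  have e1 : EU (Uu D A) v = (∫ x, v x * wt D A x) / ∫ x, wt D A x := EU_eq hD hne hA _
  have e3 : EU (Uu D A) (fun x => ‖fderiv ℝ v x‖ ^ 2) =
      (∫ x, ‖fderiv ℝ v x‖ ^ 2 * wt D A x) / ∫ x, wt D A x := EU_eq hD hne hA _
  have hPv := hP v hv hb
  rw [e3]
  rw [e1, e2] at hvar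
  unfold VV EV at hPv
  rw [← hVd] at hPv a1 a2
  set Z := ∫ x, wt D A x with hZdef
  set I2 := ∫ x, v x ^ 2 * wt D A x
  set I1 := ∫ x, v x * wt D A x
  set I3 := ∫ x, ‖fderiv ℝ v x‖ ^ 2 * wt D A x
  set J2 := ∫ x in D, v x ^ 2
  set J1 := ∫ x in D, v x
  set J3 := ∫ x in D, ‖fderiv ℝ v x‖ ^ 2
  have hZ0 : 0 < Z := lt_of_lt_of_le hVd0 hZ
  set p := Vd / Z with hp
  have hp0 : 0 < p := div_pos hVd0 hZ0
  have hp1 : p ≤ 1 := (div_le_one hZ0).2 hZ
  have hpZ : p * Z = Vd := div_mul_cancel₀ _ hZ0.ne'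
  -- normalised quantities
  obtain ⟨m1, hm1'⟩ : ∃ m1, m1 = J1 / Vd := ⟨_, rfl⟩
  obtain ⟨m2, hm2'⟩ : ∃ m2, m2 = J2 / Vd := ⟨_, rfl⟩
  obtain ⟨m3, hm3'⟩ : ∃ m3, m3 = J3 / Vd := ⟨_, rfl⟩
  obtain ⟨f1, hf1⟩ : ∃ f1, f1 = I1 / Z := ⟨_, rfl⟩
  obtain ⟨f2, hf2⟩ : ∃ f2, f2 = I2 / Z := ⟨_, rfl⟩
  have b1 : |f1 - p * m1| ≤ 1 - p := by
    have h2 : f1 - p * m1 = (I1 - J1) / Z := by
      rw [hf1, hm1', hp]; field_simp
    rw [h2, abs_div, abs_of_pos hZ0, div_le_iff₀ hZ0, sub_mul, one_mul, hpZ]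
    exact a2
  have b2 : |f2 - p * m2| ≤ 1 - p := by
    have h2 : f2 - p * m2 = (I2 - J2) / Z := by
      rw [hf2, hm2', hp]; field_simp
    rw [h2, abs_div, abs_of_pos hZ0, div_le_iff₀ hZ0, sub_mul, one_mul, hpZ]
    exact a1
  have b3 : p * m3 ≤ I3 / Z := by
    have h2 : p * m3 = J3 / Z := by
      rw [hm3', hp]; field_simp
    rw [h2]
    exact div_le_div_of_nonneg_right a3 hZ0.le
  have b4 : |m1| ≤ 1 := by
    rw [hm1', abs_div, abs_of_pos hVd0, div_le_one hVd0]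
    exact hm1
  rw [← hf1, ← hf2] at hvar
  rw [← hm1', ← hm2', ← hm3'] at hPv
  refine le_trans ?_ b3
  have c1 := abs_le.1 b1
  have c2 := abs_le.1 b2
  have c4 := abs_le.1 b4
  have d1 : m1 ^ 2 ≤ 1 := by nlinarith
  have d2 : f1 ^ 2 ≥ p ^ 2 * m1 ^ 2 - 2 * (1 - p) := by
    have k1 : |p * m1| ≤ 1 := by
      rw [abs_mul, abs_of_pos hp0]
      nlinarith [abs_nonneg m1]
    have k2 : |(p * m1) * (f1 - p * m1)| ≤ 1 - p := by
      rw [abs_mul]
      calc |p * m1| * |f1 - p * m1| ≤ 1 * (1 - p) :=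
            mul_le_mul k1 b1 (abs_nonneg _) zero_le_one
        _ = 1 - p := one_mul _
    have k3 := (abs_le.1 k2).1
    nlinarith [sq_nonneg (f1 - p * m1)]
  have d3 : p ^ 2 * m1 ^ 2 ≥ p * m1 ^ 2 - (1 - p) := by
    have : p * (1 - p) * m1 ^ 2 ≤ 1 * (1 - p) * 1 := by
      apply mul_le_mul _ d1 (sq_nonneg _) (by linarith)
      exact mul_le_mul_of_nonneg_right hp1 (by linarith)
    nlinarith
  have d4 : 3 * δ / 4 ≤ p * (m2 - m1 ^ 2) := by nlinarith [c2.2]
  have d5 : p * (m2 - m1 ^ 2) ≤ C * (p * m3) := by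
    have := mul_le_mul_of_nonneg_left hPv hp0.le
    linarith
  rw [div_le_iff₀ (by positivity)]
  nlinarith

theorem che : Q289.OP.S_CHE := by
  intro κ _ D hD hc hpos C hC hP μ hμ S hS
  have hs : 0 < Real.sqrt C := Real.sqrt_pos.2 hC
  refine mink κ D hD hc hpos (7 * Real.sqrt C) (by positivity) ?_ μ hμ S hS
  intro f L M hf hf2
  have hEV : 0 ≤ EV D fun x => ‖fderiv ℝ f x‖ := by
    unfold EV
    exact div_nonneg (integral_nonneg fun x => norm_nonneg _) ENNReal.toReal_nonneg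
  rcases le_or_gt (VV D f) 0 with h | h
  · exact h.trans (mul_nonneg (by positivity) hEV)
  · have hδ : 0 < VV D f / 5 := by positivity
    have h1 := wpo hD hpos hC (fun f hf hf' => hP f hf hf') hδ
    have h2 := body κ D hD hc hpos (VV D f / 5) (VV D f / 5 / (2 * C)) hδ (by positivity) h1 f L M
      hf hf2 (by linarith)
    set V := VV D f
    set E := EV D fun x => ‖fderiv ℝ f x‖
    have h3 : V * V ≤ 40 * C * E ^ 2 := by
      have e : 4 / (V / 5 / (2 * C)) * E ^ 2 = 40 * C * E ^ 2 / V := by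
        field_simp
        ring
      rw [e, le_div_iff₀ h] at h2
      exact h2
    have h4 : V ^ 2 ≤ (7 * Real.sqrt C * E) ^ 2 := by
      have e : (7 * Real.sqrt C * E) ^ 2 = 49 * C * E ^ 2 := by
        rw [mul_pow, mul_pow, Real.sq_sqrt hC.le]
        ring
      rw [e]
      nlinarith [mul_nonneg hC.le (sq_nonneg E)]
    exact (sq_le_sq₀ h.le (by positivity)).1 h4

end Q237.OP.Che
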