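import Pool.Agent.Q289.OP.Stm2
import Pool.Agent.Q73.KL.Poin

/-!
# Log-concave densities on the line
-/

set_option autoImplicit false

namespace Q237.OP.Lc1

open MeasureTheory Set Filter Topology Q289.OP Pool.Agent.Q73.KL
open scoped ENNReal

theorem int_push {F : ℝ → ℝ} {Z : ℝ} {Q q : ℝ → ℝ} (h : QD F Z Q q) (hF : ∀ x, 0 ≤ F x)
    (hFm : Measurable F) {g : ℝ → ℝ} (hg : Measurable g) :
    ∫ x, g x * F x = Z * ∫ u, g (Q u) ∂I01 := by
  calc ∫ x, g x * F x = ∫ x, g x ∂((volume : Measure ℝ).withDensity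
        fun x => ENNReal.ofReal (F x)) := by
        rw [integral_withDensity_eq_integral_toReal_smul hFm.ennreal_ofReal
          (Eventually.of_forall fun x => ENNReal.ofReal_lt_top)]
        refine integral_congr_ae (Eventually.of_forall fun x => ?_)
        simp only
        rw [ENNReal.toReal_ofReal (hF x), smul_eq_mul, mul_comm]
    _ = ∫ x, g x ∂(ENNReal.ofReal Z • I01.map Q) := by rw [h.dens_eq]
    _ = Z * ∫ u, g (Q u) ∂I01 := by
        rw [integral_smul_measure, integral_map h.meas.aemeasurable hg.aestronglyMeasurable,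
          ENNReal.toReal_ofReal h.Zpos.le, smul_eq_mul]

theorem dn {φ : ℝ → ℝ} (h : LC1 φ) : Dn φ where
  nonneg := h.nonneg
  meas := h.meas
  int := h.int
  supp := by
    refine ⟨LC1.Us φ, h.U_open, h.U_conv.ordConnected, ⟨_, h.Q_mem (u := 1 / 2) ⟨by norm_num, by norm_num⟩⟩,
      h.F_cont, fun x hx => h.F_pos hx, ?_⟩
    have h1 := h.qd.push ((LC1.Us φ)ᶜ.indicator fun _ => 1)
      (measurable_const.indicator h.U_open.measurableSet.compl)
    have h2 : ∫⁻ u in Ioo (0 : ℝ) 1, (LC1.Us φ)ᶜ.indicator (fun _ => (1 : ℝ≥0∞)) (LC1.Qf φ u) = 0 := by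
      rw [setLIntegral_congr_fun (g := fun _ => 0) measurableSet_Ioo]
      · simp
      · intro u hu
        have h3 : LC1.Qf φ u ∉ (LC1.Us φ)ᶜ := fun hc => hc (h.Q_mem hu)
        exact indicator_of_notMem h3 _
    rw [h2, mul_zero, lintegral_eq_zero_iff] at h1
    · filter_upwards [h1] with x hx hxU
      simp only [Pi.zero_apply] at hx
      rw [indicator_of_mem (show x ∈ (LC1.Us φ)ᶜ from hxU), one_mul, ENNReal.ofReal_eq_zero] at hx
      exact le_antisymm hx (h.nonneg x)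
    · exact (measurable_const.indicator h.U_open.measurableSet.compl).mul h.meas.ennreal_ofReal

theorem poin {φ : ℝ → ℝ} (h : LC1 φ) :
    Poin1 φ (((∫ y, φ y) / φ (LC1.Qf φ (1 / 2))) ^ 2) := by
  intro g hg hM hL
  obtain ⟨M, hM⟩ := hM
  obtain ⟨L', hL'⟩ := hL
  set L : ℝ := max L' 1 with hLdef
  have hL0 : 0 < L := lt_of_lt_of_le one_pos (le_max_right _ _)
  have hL : ∀ x, |deriv g x| ≤ L := fun x => (hL' x).trans (le_max_left _ _)
  set W : ℝ := (∫ y, φ y) / φ (LC1.Qf φ (1 / 2)) with hW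
  have hq := h.qd
  have hgc := hg.continuous
  have hdc : Continuous (deriv g) := hg.continuous_deriv (by norm_num)
  have hgd : ∀ x, HasDerivAt g (deriv g x) x := fun x =>
    (hg.differentiable (by norm_num) x).hasDerivAt
  have key := hq.poin (W := W) (ψ := fun x => g x / L) (δ := fun x => deriv g x / L) le_rfl
    (fun x => (hgd x).div_const L) (hdc.div_const L) (M := M / L)
    (fun u => by
      rw [abs_div, abs_of_pos hL0]
      exact div_le_div_of_nonneg_right (hM _) hL0.le)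
    (fun x => by
      rw [abs_div, abs_of_pos hL0, div_le_one hL0]
      exact hL x)
  have hZ := h.pos
  set Z := ∫ y, φ y with hZdef
  set Q := LC1.Qf φ with hQ
  have e0 : (∫ y, g y * φ y) / Z = ∫ v, g (Q v) ∂I01 := by
    rw [int_push hq h.nonneg h.meas hgc.measurable]
    field_simp
  have e1 : ∫ x, (g x - (∫ y, g y * φ y) / Z) ^ 2 * φ x =
      Z * ∫ u, (g (Q u) - ∫ v, g (Q v) ∂I01) ^ 2 ∂I01 := by
    rw [e0]
    exact int_push hq h.nonneg h.meas ((hgc.measurable.sub_const _).pow_const 2)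
  have e2 : ∫ x, deriv g x ^ 2 * φ x = Z * ∫ u, deriv g (Q u) ^ 2 ∂I01 :=
    int_push hq h.nonneg h.meas (hdc.measurable.pow_const 2)
  have k1 : ∫ u, (g (Q u) / L - ∫ v, g (Q v) / L ∂I01) ^ 2 ∂I01 =
      (∫ u, (g (Q u) - ∫ v, g (Q v) ∂I01) ^ 2 ∂I01) / L ^ 2 := by
    have k0 : ∫ v, g (Q v) / L ∂I01 = (∫ v, g (Q v) ∂I01) / L := integral_div L _
    have k00 : (∫ u, (g (Q u) - ∫ v, g (Q v) ∂I01) ^ 2 ∂I01) / L ^ 2 =
        ∫ u, (g (Q u) - ∫ v, g (Q v) ∂I01) ^ 2 / L ^ 2 ∂I01 := (integral_div _ _).symm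
    rw [k0, k00]
    refine integral_congr_ae (Eventually.of_forall fun u => ?_)
    simp only
    ring
  have k2 : ∫ u, W ^ 2 * (deriv g (Q u) / L) ^ 2 ∂I01 =
      W ^ 2 * (∫ u, deriv g (Q u) ^ 2 ∂I01) / L ^ 2 := by
    have k00 : W ^ 2 * (∫ u, deriv g (Q u) ^ 2 ∂I01) / L ^ 2 =
        ∫ u, W ^ 2 * deriv g (Q u) ^ 2 / L ^ 2 ∂I01 := by
      rw [integral_div, integral_const_mul]
    rw [k00]
    refine integral_congr_ae (Eventually.of_forall fun u => ?_)
    simp only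
    ring
  rw [k1, k2] at key
  have k3 := (div_le_div_iff_of_pos_right (by positivity : (0:ℝ) < L ^ 2)).1 key
  rw [e1, e2]
  calc Z * ∫ u, (g (Q u) - ∫ v, g (Q v) ∂I01) ^ 2 ∂I01
      ≤ Z * (W ^ 2 * ∫ u, deriv g (Q u) ^ 2 ∂I01) := mul_le_mul_of_nonneg_left k3 hZ.le
    _ = _ := by ring

theorem onedlc : S_1DLC := by
  intro φ h
  refine ⟨dn h, ?_, poin h⟩
  have h1 := h.F_pos (h.Q_mem (u := 1 / 2) ⟨by norm_num, by norm_num⟩)
  have h2 := h.pos
  positivity

end Q237.OP.Lc1
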