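import Pool.Agent.Q289.OP.Stm

/-!
# Volumes for general disjoint ordered cells
-/

set_option autoImplicit false

namespace Q237.OP.Len

open MeasureTheory Set Q289.OP

theorem key (s l : ℕ → ℝ) (hl : ∀ b, 0 < l b) (hs : ∀ b b' : ℕ, b < b' → s b + l b ≤ s b')
    (b b' : ℕ) (u u' : ℝ) (hu : 0 ≤ u ∧ u < 1) (hu' : 0 ≤ u' ∧ u' < 1) :
    ((b : ℝ) + u ≤ (b' : ℝ) + u') ↔ (s b + l b * u ≤ s b' + l b' * u') := by
  have h1 := hl b
  have h2 := hl b'
  have h3 : 0 ≤ l b * u := mul_nonneg h1.le hu.1
  have h3' : 0 ≤ l b' * u' := mul_nonneg h2.le hu'.1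
  have h4 : l b * u < l b := by nlinarith [hu.2]
  have h4' : l b' * u' < l b' := by nlinarith [hu'.2]
  rcases lt_trichotomy b b' with h | h | h
  · have h5 := hs b b' h
    have h6 : (b : ℝ) + 1 ≤ b' := by exact_mod_cast h
    constructor
    · intro _; linarith
    · intro _; linarith [hu.2, hu'.1]
  · subst h
    constructor
    · intro h7
      have : u ≤ u' := by linarith
      nlinarith
    · intro h7
      have : l b * u ≤ l b * u' := by linarith
      have := le_of_mul_le_mul_left this h1
      linarith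
  · have h5 := hs b' b h
    have h6 : (b' : ℝ) + 1 ≤ b := by exact_mod_cast h
    constructor
    · intro h7; linarith [hu.1, hu'.2]
    · intro h7; linarith

theorem len : S_LEN := by
  intro ι _ _ _ s l hl hs c
  set A : Set (ι → ℝ) :=
    {x : ι → ℝ | (∀ i, x i ∈ Ico (s (c i)) (s (c i) + l (c i))) ∧ Monotone x} with hA
  set f : (ι → ℝ) →ₗ[ℝ] (ι → ℝ) := Matrix.toLin' (Matrix.diagonal fun i => l (c i)) with hf
  have hfu : ∀ u : ι → ℝ, ∀ i, f u i = l (c i) * u i := by
    intro u i
    rw [hf, Matrix.toLin'_apply, Matrix.mulVec_diagonal]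
  have hdet : LinearMap.det f = ∏ i, l (c i) := by
    rw [hf, LinearMap.det_toLin', Matrix.det_diagonal]
  have hpos : 0 < ∏ i, l (c i) := Finset.prod_pos fun i _ => hl _
  have hVS : VS c = f ⁻¹' ((fun x => (fun i => s (c i)) + x) ⁻¹' A) := by
    ext u
    simp only [VS, mem_setOf_eq, mem_preimage, hA, Pi.add_apply, hfu]
    have e1 : (∀ i, u i ∈ Ico (0 : ℝ) 1) ↔
        ∀ i, s (c i) + l (c i) * u i ∈ Ico (s (c i)) (s (c i) + l (c i)) := by
      refine forall_congr' fun i => ?_
      have h1 := hl (c i)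
      constructor
      · rintro ⟨h2, h3⟩
        refine ⟨?_, ?_⟩
        · have := mul_nonneg h1.le h2
          linarith
        · nlinarith
      · rintro ⟨h2, h3⟩
        refine ⟨?_, ?_⟩
        · have : 0 ≤ l (c i) * u i := by linarith
          exact nonneg_of_mul_nonneg_right this h1
        · by_contra h4
          push Not at h4
          nlinarith
    constructor
    · rintro ⟨h1, h2⟩
      refine ⟨e1.1 h1, ?_⟩
      intro i j hij
      have := (key s l hl hs (c i) (c j) (u i) (u j) (h1 i) (h1 j)).1 (h2 hij)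
      simpa only [Pi.add_apply, hfu] using this
    · rintro ⟨h1, h2⟩
      have h3 := e1.2 h1
      refine ⟨h3, ?_⟩
      intro i j hij
      refine (key s l hl hs (c i) (c j) (u i) (u j) (h3 i) (h3 j)).2 ?_
      have := h2 hij
      simpa only [Pi.add_apply, hfu] using this
  have hvol : volume (VS c) = ENNReal.ofReal |(∏ i, l (c i))⁻¹| * volume A := by
    rw [hVS, Measure.addHaar_preimage_linearMap volume (by rw [hdet]; exact hpos.ne'),
      measure_preimage_add, hdet]
  unfold vv
  rw [hvol, ENNReal.toReal_mul, ENNReal.toReal_ofReal (abs_nonneg _), abs_of_pos (inv_pos.2 hpos),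
    ← mul_assoc, mul_inv_cancel₀ hpos.ne', one_mul]

end Q237.OP.Len
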