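import Pool.Agent.Q289.OP.Stm2

/-!
# Order polytopes
-/

set_option autoImplicit false

namespace Q237.OP.Ord

open MeasureTheory Set Filter Topology Q289.OP Pool.Agent.Q73.KL
open scoped ENNReal

theorem lc1 (a b : ℝ) (hab : a < b) : LC1 ((Icc a b).indicator fun _ => (1 : ℝ)) where
  nonneg x := indicator_nonneg (fun _ _ => zero_le_one) x
  meas := measurable_const.indicator measurableSet_Icc
  logc x y t t0 t1 := by
    by_cases hx : x ∈ Icc a b
    · by_cases hy : y ∈ Icc a b
      · have h1 : (1 - t) * x + t * y ∈ Icc a b := by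
          have := (convex_Icc a b) hx hy (a := 1 - t) (b := t) (by linarith) t0.le (by ring)
          simpa using this
        rw [indicator_of_mem hx, indicator_of_mem hy, indicator_of_mem h1]
        simp
      · rw [indicator_of_notMem hy, Real.zero_rpow t0.ne', mul_zero]
        exact indicator_nonneg (fun _ _ => zero_le_one) _
    · rw [indicator_of_notMem hx, Real.zero_rpow (by linarith), zero_mul]
      exact indicator_nonneg (fun _ _ => zero_le_one) _
  int := by
    rw [integrable_indicator_iff measurableSet_Icc]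
    exact integrableOn_const (by simp)
  pos := by
    rw [integral_indicator measurableSet_Icc]
    simp only [integral_const, smul_eq_mul, mul_one, measureReal_restrict_apply_univ]
    rw [Real.volume_real_Icc_of_le hab.le]
    linarith

variable {ι : Type} [Fintype ι] [PartialOrder ι]

/-- the order polytope -/
def D (ι : Type) [PartialOrder ι] (a b : ℝ) : Set (EuclideanSpace ℝ ι) :=
  {x : EuclideanSpace ℝ ι | (∀ i, x i ∈ Icc a b) ∧ Monotone fun i => x i}

theorem cont_apply (i : ι) : Continuous fun x : EuclideanSpace ℝ ι => x i := by fun_prop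

theorem closed (a b : ℝ) : IsClosed (D ι a b) := by
  have h1 : D ι a b = (⋂ i, {x : EuclideanSpace ℝ ι | x i ∈ Icc a b}) ∩
      ⋂ i, ⋂ j, ⋂ (_ : i ≤ j), {x : EuclideanSpace ℝ ι | x i ≤ x j} := by
    ext x
    simp only [D, mem_setOf_eq, mem_inter_iff, mem_iInter]
    exact and_congr Iff.rfl ⟨fun h i j hij => h hij, fun h i j hij => h i j hij⟩
  rw [h1]
  refine IsClosed.inter (isClosed_iInter fun i => ?_)
    (isClosed_iInter fun i => isClosed_iInter fun j => isClosed_iInter fun _ => ?_)
  · exact isClosed_Icc.preimage (cont_apply i)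
  · exact isClosed_le (cont_apply i) (cont_apply j)

theorem compact (a b : ℝ) : IsCompact (D ι a b) := by
  have h1 : IsCompact ((EuclideanSpace.equiv ι ℝ).toHomeomorph ⁻¹'
      (Set.pi univ fun _ : ι => Icc a b)) :=
    (Homeomorph.isCompact_preimage _).2 (isCompact_univ_pi fun _ => isCompact_Icc)
  refine h1.of_isClosed_subset (closed a b) fun x hx => ?_
  intro i _
  exact hx.1 i

theorem convex (a b : ℝ) : Convex ℝ (D ι a b) := by
  intro x hx y hy s t hs ht hst
  refine ⟨fun i => ?_, fun i j hij => ?_⟩
  · have := (convex_Icc a b) (hx.1 i) (hy.1 i) hs ht hst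
    simpa using this
  · have h1 : x i ≤ x j := hx.2 hij
    have h2 : y i ≤ y j := hy.2 hij
    simp only [PiLp.add_apply, PiLp.smul_apply, smul_eq_mul]
    exact add_le_add (mul_le_mul_of_nonneg_left h1 hs) (mul_le_mul_of_nonneg_left h2 ht)

theorem inter_nonempty (a b : ℝ) (hab : a < b) : (interior (D ι a b)).Nonempty := by
  classical
  set O : Set (EuclideanSpace ℝ ι) := (⋂ i, {x : EuclideanSpace ℝ ι | x i ∈ Ioo a b}) ∩
      ⋂ i, ⋂ j, ⋂ (_ : i < j), {x : EuclideanSpace ℝ ι | x i < x j} with hO
  have hopen : IsOpen O := by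
    refine IsOpen.inter (isOpen_iInter_of_finite fun i => isOpen_Ioo.preimage (cont_apply i))
      (isOpen_iInter_of_finite fun i => isOpen_iInter_of_finite fun j =>
        isOpen_iInter_of_finite fun _ => isOpen_lt (cont_apply i) (cont_apply j))
  have hsub : O ⊆ D ι a b := by
    intro x hx
    rw [hO] at hx
    simp only [mem_inter_iff, mem_iInter, mem_setOf_eq] at hx
    refine ⟨fun i => Ioo_subset_Icc_self (hx.1 i), fun i j hij => ?_⟩
    rcases hij.eq_or_lt with h | h
    · rw [h]
    · exact (hx.2 i j h).le
  set r : ι → ℕ := fun i => (Finset.univ.filter fun j => j < i).card with hr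
  have hrn : ∀ i, r i ≤ Fintype.card ι := fun i => Finset.card_le_univ _
  have hrl : ∀ i j, i < j → r i < r j := by
    intro i j hij
    refine Finset.card_lt_card ⟨fun k hk => ?_, fun hc => ?_⟩
    · rw [Finset.mem_filter] at hk ⊢
      exact ⟨hk.1, hk.2.trans hij⟩
    · have h1 : i ∈ Finset.univ.filter fun k => k < j := by simp [hij]
      have h2 := hc h1
      simp at h2
  set n : ℝ := (Fintype.card ι : ℝ) + 2 with hn
  have hn0 : 0 < n := by positivity
  have hmem : (WithLp.toLp 2 fun i => a + (b - a) * (((r i : ℝ) + 1) / n) : EuclideanSpace ℝ ι) ∈ O := by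
    rw [hO]
    simp only [mem_inter_iff, mem_iInter, mem_setOf_eq]
    have hba : 0 < b - a := by linarith
    refine ⟨fun i => ⟨?_, ?_⟩, fun i j hij => ?_⟩
    · have : 0 < (b - a) * (((r i : ℝ) + 1) / n) := by positivity
      linarith
    · have h1 : ((r i : ℝ) + 1) / n < 1 := by
        rw [div_lt_one hn0, hn]
        have : (r i : ℝ) ≤ Fintype.card ι := by exact_mod_cast hrn i
        linarith
      have : (b - a) * (((r i : ℝ) + 1) / n) < (b - a) * 1 := mul_lt_mul_of_pos_left h1 hba
      linarith
    · have h1 : (r i : ℝ) < r j := by exact_mod_cast hrl i j hij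
      have h2 : ((r i : ℝ) + 1) / n < ((r j : ℝ) + 1) / n := by
        rw [div_lt_div_iff_of_pos_right hn0]
        linarith
      have := mul_lt_mul_of_pos_left h2 hba
      linarith
  exact ⟨_, interior_maximal hsub hopen hmem⟩

theorem om_eq (a b : ℝ) :
    om ι ((Icc a b).indicator fun _ => 1) = volume.restrict (D ι a b) := by
  classical
  unfold om
  have h1 : (fun x : EuclideanSpace ℝ ι =>
      ENNReal.ofReal (Q289.OP.den ((Icc a b).indicator fun _ => (1 : ℝ)) fun i => x i)) =
      (D ι a b).indicator 1 := by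
    funext x
    unfold Q289.OP.den
    by_cases hx : x ∈ D ι a b
    · rw [indicator_of_mem hx, if_pos hx.2, Finset.prod_eq_one fun i _ => indicator_of_mem (hx.1 i) _]
      simp
    · rw [indicator_of_notMem hx]
      by_cases hm : Monotone fun i => x i
      · rw [if_pos hm]
        obtain ⟨i, hi⟩ : ∃ i, x i ∉ Icc a b := by
          by_contra hc
          push Not at hc
          exact hx ⟨hc, hm⟩
        rw [Finset.prod_eq_zero (Finset.mem_univ i) (indicator_of_notMem hi _), ENNReal.ofReal_zero]
      · rw [if_neg hm, ENNReal.ofReal_zero]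
  rw [h1, withDensity_indicator (closed a b).measurableSet, withDensity_one]

theorem ord : S_ORD := by
  intro ι _ _ a b hab
  refine ⟨compact a b, convex a b, inter_nonempty a b hab, ?_, lc1 a b hab⟩
  unfold Q289.OP.mu
  rw [om_eq, Measure.restrict_apply_univ]
  rfl

end Q237.OP.Ord
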