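import Pool.Agent.Q289.OP.Stm2
import Pool.Agent.Q73.KL.Poin
import Pool.Agent.Q73.KL.Lim

/-!
# A bound of the one-dimensional constant
-/

set_option autoImplicit false

namespace Q237.OP.Var

open MeasureTheory Set Filter Topology Pool.Agent.Q73.KL
open scoped ENNReal

variable {ι : Type} [Fintype ι]

theorem lint_prod' (G : ι → ℝ → ℝ) (hG : ∀ i, Integrable (G i)) (h0 : ∀ i x, 0 ≤ G i x) :
    ∫⁻ x : ι → ℝ, ENNReal.ofReal (∏ i, G i (x i)) = ∏ i, ENNReal.ofReal (∫ x, G i x) := by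
  have h1 : Integrable (fun x : ι → ℝ => ∏ i, G i (x i)) := Integrable.fintype_prod hG
  rw [← ofReal_integral_eq_lintegral_ofReal h1
    (Eventually.of_forall fun x => Finset.prod_nonneg fun i _ => h0 i _),
    integral_fintype_prod_volume_eq_prod, ENNReal.ofReal_prod_of_nonneg fun i _ =>
      integral_nonneg fun x => h0 i x]

theorem box_dens {φ : ℝ → ℝ} (h : LC1 φ) (s : ι → Set ℝ) (hs : ∀ i, MeasurableSet (s i)) :
    (volume : Measure (ι → ℝ)).withDensity (fun x => ENNReal.ofReal (∏ i, φ (x i)))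
      (univ.pi s) = ∏ i, ((volume : Measure ℝ).withDensity fun x => ENNReal.ofReal (φ x)) (s i) := by
  rw [withDensity_apply _ (MeasurableSet.univ_pi hs), ← lintegral_indicator (MeasurableSet.univ_pi hs)]
  have e : ∀ x : ι → ℝ, (univ.pi s).indicator (fun x => ENNReal.ofReal (∏ i, φ (x i))) x =
      ENNReal.ofReal (∏ i, (s i).indicator φ (x i)) := by
    intro x
    by_cases hx : x ∈ univ.pi s
    · rw [indicator_of_mem hx]
      congr 1
      refine Finset.prod_congr rfl fun i _ => ?_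
      rw [indicator_of_mem (hx i (mem_univ i))]
    · rw [indicator_of_notMem hx]
      obtain ⟨i, hi⟩ : ∃ i, x i ∉ s i := by
        by_contra hc
        push Not at hc
        exact hx fun i _ => hc i
      rw [Finset.prod_eq_zero (Finset.mem_univ i) (indicator_of_notMem hi _), ENNReal.ofReal_zero]
  simp only [e]
  rw [lint_prod' (fun i => (s i).indicator φ) (fun i => h.int.indicator (hs i))
    (fun i x => indicator_nonneg (fun x _ => h.nonneg x) x)]
  refine Finset.prod_congr rfl fun i _ => ?_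
  rw [withDensity_apply _ (hs i), integral_indicator (hs i),
    ofReal_integral_eq_lintegral_ofReal h.int.integrableOn (Eventually.of_forall fun x => h.nonneg x)]

theorem dens {φ : ℝ → ℝ} (h : LC1 φ) :
    (volume : Measure (ι → ℝ)).withDensity (fun x => ENNReal.ofReal (∏ i, φ (x i))) =
      (ENNReal.ofReal (∫ x, φ x) ^ Fintype.card ι) •
        (Measure.pi fun _ : ι => I01).map fun u i => LC1.Qf φ (u i) := by
  have hq := h.qd
  have hc0 : ENNReal.ofReal (∫ x, φ x) ≠ 0 := by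
    rw [Ne, ENNReal.ofReal_eq_zero, not_le]
    exact h.pos
  have hc1 : ENNReal.ofReal (∫ x, φ x) ≠ ⊤ := ENNReal.ofReal_ne_top
  set c := ENNReal.ofReal (∫ x, φ x) with hc
  have hprob : IsProbabilityMeasure (I01.map (LC1.Qf φ)) :=
    Measure.isProbabilityMeasure_map hq.meas.aemeasurable
  have e1 : (Measure.pi fun _ : ι => I01).map (fun u i => LC1.Qf φ (u i)) =
      Measure.pi fun _ : ι => I01.map (LC1.Qf φ) :=
    Measure.pi_map_pi fun _ => hq.meas.aemeasurable
  rw [e1]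
  have e2 : Measure.pi (fun _ : ι => I01.map (LC1.Qf φ)) = (c ^ Fintype.card ι)⁻¹ •
      (volume : Measure (ι → ℝ)).withDensity (fun x => ENNReal.ofReal (∏ i, φ (x i))) := by
    refine Measure.pi_eq fun s hs => ?_
    rw [Measure.smul_apply, box_dens h s hs, hq.dens_eq, smul_eq_mul]
    simp only [Measure.smul_apply, smul_eq_mul]
    rw [Finset.prod_mul_distrib, Finset.prod_const, Finset.card_univ, ← mul_assoc,
      ENNReal.inv_mul_cancel (pow_ne_zero _ hc0) (ENNReal.pow_ne_top hc1), one_mul]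
  rw [e2, smul_smul, ENNReal.mul_inv_cancel (pow_ne_zero _ hc0) (ENNReal.pow_ne_top hc1), one_smul]

section

variable [PartialOrder ι]

theorem den_eq (φ : ℝ → ℝ) (x : ι → ℝ) : ENNReal.ofReal (Q289.OP.den φ x) =
    ({x : ι → ℝ | Monotone x}).indicator (fun x => ENNReal.ofReal (∏ i, φ (x i))) x := by
  classical
  unfold Q289.OP.den
  by_cases hx : Monotone x
  · rw [if_pos hx, indicator_of_mem (show x ∈ {x : ι → ℝ | Monotone x} from hx)]
  · rw [if_neg hx, indicator_of_notMem (show x ∉ {x : ι → ℝ | Monotone x} from hx),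
      ENNReal.ofReal_zero]

theorem mono_meas : MeasurableSet {x : ι → ℝ | Monotone x} := isClosed_monotone.measurableSet

theorem prod_meas {φ : ℝ → ℝ} (h : LC1 φ) :
    Measurable fun x : ι → ℝ => ENNReal.ofReal (∏ i, φ (x i)) := by
  refine Measurable.ennreal_ofReal ?_
  exact Finset.measurable_prod _ fun i _ => h.meas.comp (measurable_pi_apply i)

theorem lint_om [DecidableEq ι] {φ : ℝ → ℝ} (h : LC1 φ) (κ : ℝ≥0∞)
    (hκ : ∀ G : (ι → ℝ) → ℝ≥0∞, Measurable G → (∀ (σ : Equiv.Perm ι) (x : ι → ℝ), G (x ∘ σ) = G x) →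
      ∫⁻ x in {x : ι → ℝ | Monotone x}, G x = κ * ∫⁻ x, G x)
    (G : (ι → ℝ) → ℝ≥0∞) (hG : Measurable G)
    (hs : ∀ (σ : Equiv.Perm ι) (x : ι → ℝ), G (x ∘ σ) = G x) :
    ∫⁻ x, G (fun i => x i) ∂(Q289.OP.om ι φ) =
      κ * (ENNReal.ofReal (∫ x, φ x) ^ Fintype.card ι *
        ∫⁻ u, G (fun i => LC1.Qf φ (u i)) ∂(Measure.pi fun _ : ι => I01)) := by
  have hof : Measurable fun x : EuclideanSpace ℝ ι => fun i => x i :=
    (PiLp.volume_preserving_ofLp ι).measurable
  have m1 : Measurable fun x : ι → ℝ => ENNReal.ofReal (Q289.OP.den φ x) := by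
    have : (fun x : ι → ℝ => ENNReal.ofReal (Q289.OP.den φ x)) =
        ({x : ι → ℝ | Monotone x}).indicator (fun x => ENNReal.ofReal (∏ i, φ (x i))) :=
      funext fun x => den_eq φ x
    rw [this]
    exact (prod_meas h).indicator mono_meas
  have e1 : ∫⁻ x, G (fun i => x i) ∂(Q289.OP.om ι φ) =
      ∫⁻ x : EuclideanSpace ℝ ι, ENNReal.ofReal (Q289.OP.den φ fun i => x i) * G (fun i => x i) := by
    have k := lintegral_withDensity_eq_lintegral_mul (volume : Measure (EuclideanSpace ℝ ι))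
      (m1.comp hof) (hG.comp hof)
    exact k
  have e2 : ∫⁻ x : EuclideanSpace ℝ ι, ENNReal.ofReal (Q289.OP.den φ fun i => x i) *
      G (fun i => x i) = ∫⁻ x : ι → ℝ, ENNReal.ofReal (Q289.OP.den φ x) * G x :=
    (PiLp.volume_preserving_ofLp ι).lintegral_comp (m1.mul hG)
  have e3 : ∫⁻ x : ι → ℝ, ENNReal.ofReal (Q289.OP.den φ x) * G x =
      ∫⁻ x in {x : ι → ℝ | Monotone x}, ENNReal.ofReal (∏ i, φ (x i)) * G x := by
    rw [← lintegral_indicator mono_meas]
    refine lintegral_congr fun x => ?_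
    rw [den_eq]
    by_cases hx : x ∈ {x : ι → ℝ | Monotone x}
    · rw [indicator_of_mem hx, indicator_of_mem hx]
    · rw [indicator_of_notMem hx, indicator_of_notMem hx, zero_mul]
  have e4 : ∫⁻ x in {x : ι → ℝ | Monotone x}, ENNReal.ofReal (∏ i, φ (x i)) * G x =
      κ * ∫⁻ x : ι → ℝ, ENNReal.ofReal (∏ i, φ (x i)) * G x := by
    refine hκ (fun x => ENNReal.ofReal (∏ i, φ (x i)) * G x) ((prod_meas h).mul hG) ?_
    intro σ x
    have h1 : ∏ i, φ ((x ∘ σ) i) = ∏ i, φ (x i) := Equiv.prod_comp σ fun i => φ (x i)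
    simp only [h1, hs σ x]
  rw [e1, e2, e3, e4]
  · congr 1
    calc ∫⁻ x : ι → ℝ, ENNReal.ofReal (∏ i, φ (x i)) * G x =
        ∫⁻ x, G x ∂((volume : Measure (ι → ℝ)).withDensity
          (fun x => ENNReal.ofReal (∏ i, φ (x i)))) := by
          have k := lintegral_withDensity_eq_lintegral_mul (volume : Measure (ι → ℝ))
            (prod_meas h) hG
          exact k.symm
      _ = _ := by
          rw [dens h, lintegral_smul_measure, lintegral_map hG]
          · rfl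
          · exact measurable_pi_lambda _ fun i => h.Q_meas.comp (measurable_pi_apply i)

theorem lint_mu [DecidableEq ι] {φ : ℝ → ℝ} (h : LC1 φ) (h1 : Q289.OP.S_SYM)
    (G : (ι → ℝ) → ℝ≥0∞) (hG : Measurable G)
    (hs : ∀ (σ : Equiv.Perm ι) (x : ι → ℝ), G (x ∘ σ) = G x) :
    ∫⁻ x, G (fun i => x i) ∂(Q289.OP.mu ι φ) =
      ∫⁻ u, G (fun i => LC1.Qf φ (u i)) ∂(Measure.pi fun _ : ι => I01) := by
  obtain ⟨κ, k0, k1, hκ⟩ := h1 ι
  have a1 := lint_om h κ hκ G hG hs
  have a2 := lint_om h κ hκ (fun _ => 1) measurable_const fun _ _ => rfl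
  simp only [lintegral_const, one_mul, measure_univ, mul_one] at a2
  unfold Q289.OP.mu
  rw [lintegral_smul_measure, a1, a2, smul_eq_mul, ← mul_assoc κ, ← mul_assoc]
  have hc0 : ENNReal.ofReal (∫ x, φ x) ≠ 0 := by
    rw [Ne, ENNReal.ofReal_eq_zero, not_le]
    exact h.pos
  have hc1 : ENNReal.ofReal (∫ x, φ x) ≠ ⊤ := ENNReal.ofReal_ne_top
  rw [ENNReal.inv_mul_cancel (mul_ne_zero k0 (pow_ne_zero _ hc0))
    (ENNReal.mul_ne_top k1 (ENNReal.pow_ne_top hc1)), one_mul]

end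

theorem memLp_Q {φ : ℝ → ℝ} (h : LC1 φ) : MemLp (LC1.Qf φ) 2 I01 := by
  have hq := h.qd
  set W : ℝ := (∫ y, φ y) / φ (LC1.Qf φ (1 / 2)) with hW
  have h1 := hardy (h := LC1.Qf φ) (h' := fun u => (∫ y, φ y) / φ (LC1.Qf φ u)) hq.deriv hq.cont
  refine (var_of_lint (μ := I01) (a := LC1.Qf φ (1 / 2)) (D := W ^ 2) hq.meas (sq_nonneg _)
    (h1.trans ?_)).1
  have h2 : ∫⁻ u in Ioo (0:ℝ) 1, ENNReal.ofReal ((min u (1 - u) * ((∫ y, φ y) / φ (LC1.Qf φ u))) ^ 2) ≤
      ∫⁻ _u in Ioo (0:ℝ) 1, ENNReal.ofReal (W ^ 2 / 4) := by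
    refine setLIntegral_mono_ae' measurableSet_Ioo (Eventually.of_forall fun u hu => ?_)
    refine ENNReal.ofReal_le_ofReal ?_
    have h2 := hq.up u hu
    have h3 : 0 ≤ min u (1 - u) := le_min hu.1.le (by linarith [hu.2])
    have h4 : 0 ≤ min u (1 - u) * ((∫ y, φ y) / φ (LC1.Qf φ u)) := mul_nonneg h3 (hq.qpos u hu).le
    have h5 : min u (1 - u) * ((∫ y, φ y) / φ (LC1.Qf φ u)) ≤ W / 2 := by linarith
    calc (min u (1 - u) * ((∫ y, φ y) / φ (LC1.Qf φ u))) ^ 2 ≤ (W / 2) ^ 2 :=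
          pow_le_pow_left₀ h4 h5 2
      _ = W ^ 2 / 4 := by ring
  refine (mul_le_mul' le_rfl h2).trans (le_of_eq ?_)
  rw [setLIntegral_const, Real.volume_Ioo, sub_zero, ENNReal.ofReal_one, mul_one,
    show (4 : ℝ≥0∞) = ENNReal.ofReal 4 by norm_num, ← ENNReal.ofReal_mul (by norm_num)]
  congr 1
  ring

theorem var (h0 : Q289.OP.S_SYM) : Q289.OP.S_VAR := by
  intro ι _ _ _ _ φ s h hs hev
  have hq := h.qd
  have hQ := memLp_Q h
  set W : ℝ := (∫ y, φ y) / φ (LC1.Qf φ (1 / 2)) with hW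
  rw [ProbabilityTheory.evariance_eq_lintegral_ofReal] at hev
  set a : ℝ := ∫ x : EuclideanSpace ℝ ι, ∑ i, x i ∂(Q289.OP.mu ι φ) with ha
  have e1 := lint_mu (ι := ι) h h0 (fun x => ENNReal.ofReal ((∑ i, x i - a) ^ 2)) (by fun_prop)
    (fun σ x => by
      have : ∑ i, (x ∘ σ) i = ∑ i, x i := Equiv.sum_comp σ x
      rw [this])
  rw [e1] at hev
  set Y : (ι → ℝ) → ℝ := ∑ i, fun u : ι → ℝ => LC1.Qf φ (u i) with hY
  have hYa : ∀ u, Y u = ∑ i, LC1.Qf φ (u i) := fun u => by rw [hY, Finset.sum_apply]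
  have hYm : Measurable Y := by
    have : Y = fun u => ∑ i, LC1.Qf φ (u i) := funext hYa
    rw [this]
    exact Finset.measurable_sum _ fun i _ => h.Q_meas.comp (measurable_pi_apply i)
  have hn : (0:ℝ) < Fintype.card ι := by exact_mod_cast Fintype.card_pos
  have e2 := var_of_lint (μ := Measure.pi fun _ : ι => I01) (f := Y) (a := a)
    (D := s * Fintype.card ι) hYm (by positivity) (by simpa only [hYa] using hev)
  have e3 : ProbabilityTheory.variance Y (Measure.pi fun _ : ι => I01) ≤ s * Fintype.card ι := by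
    rw [ProbabilityTheory.variance_eq_sub e2.1]
    exact e2.2
  have e4 := ProbabilityTheory.variance_sum_pi (μ := fun _ : ι => I01) (X := fun _ : ι => LC1.Qf φ)
    (fun _ => hQ)
  rw [hY, e4, Finset.sum_const, Finset.card_univ, nsmul_eq_mul] at e3
  have e5 : ProbabilityTheory.variance (LC1.Qf φ) I01 ≤ s := by
    rw [mul_comm s] at e3
    exact le_of_mul_le_mul_left e3 hn
  have e6 := hq.var_lo (∫ u, LC1.Qf φ u ∂I01)
  rw [← ProbabilityTheory.evariance_eq_lintegral_ofReal, ← hQ.ofReal_variance_eq,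
    ENNReal.ofReal_le_ofReal_iff (ProbabilityTheory.variance_nonneg _ _)] at e6
  have e7 : W ^ 2 / 64 ≤ ProbabilityTheory.variance (LC1.Qf φ) I01 := e6
  linarith

end Q237.OP.Var
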